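/-
Module C2 of project PI (MP_e49510_nt): the Schwarzian identity for `w`.
-/
import Pool.Agent.H22.Pi.Defs
import Pool.Agent.H22.Pi.TK

set_option autoImplicit false

namespace Pool.Agent.H5.Pi

open Complex Filter Asymptotics Pool.Agent.H22.Pi Pool.Agent.H22.Pi.TK
open scoped Real Topology

/-! ### Generalities -/

/-- The upper half plane. -/
abbrev Hp : Set ℂ := {z : ℂ | 0 < z.im}

lemma isOpen_Hp : IsOpen Hp := isOpen_lt continuous_const Complex.continuous_im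

lemma Hp_mem {z : ℂ} (hz : 0 < z.im) : Hp ∈ 𝓝 z := isOpen_Hp.mem_nhds hz

/-- `q = exp(2 pi i z)`. -/
noncomputable def qe (z : ℂ) : ℂ := cexp (2 * π * I * z)

lemma tpi_ne : (2 * π * I : ℂ) ≠ 0 := Complex.two_pi_I_ne_zero

lemma qe_norm_lt {z : ℂ} (hz : 0 < z.im) : ‖qe z‖ < 1 := by
  rw [qe, Complex.norm_exp]
  have : (2 * π * I * z : ℂ).re = -(2 * π * z.im) := by
    simp [Complex.mul_re, Complex.mul_im]
  rw [this, Real.exp_lt_one_iff]
  have := Real.pi_pos
  nlinarith [mul_pos this hz]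

lemma qe_ne (z : ℂ) : qe z ≠ 0 := Complex.exp_ne_zero _

lemma qe_mem {z : ℂ} (hz : 0 < z.im) : qe z ∈ Metric.ball (0 : ℂ) 1 := by
  rw [mem_ball_zero_iff]; exact qe_norm_lt hz

lemma hasDerivAt_qe (z : ℂ) : HasDerivAt qe (qe z * (2 * π * I)) z := by
  have h1 : HasDerivAt (fun z : ℂ => 2 * π * I * z) (2 * π * I) z := by
    simpa using (hasDerivAt_id z).const_mul (2 * π * I : ℂ)
  exact h1.cexp

lemma qe_nat_mul (k : ℕ) (z : ℂ) : qe (k * z) = qe z ^ k := by
  rw [qe, qe, ← Complex.exp_nat_mul]; congr 1; ring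

lemma qe_tendsto : Tendsto qe (comap Complex.im atTop) (𝓝[≠] 0) := by
  have h := Function.Periodic.qParam_tendsto (h := 1) one_pos
  refine h.congr fun z => ?_
  simp [Function.Periodic.qParam, qe]

lemma hasDerivAt_Dz {f : ℂ → ℂ} {z : ℂ} (hf : DifferentiableAt ℂ f z) :
    HasDerivAt f (2 * π * I * Dz f z) z := by
  have h := hf.hasDerivAt
  have h1 : (2 * π * I : ℂ) * Dz f z = deriv f z := by
    simp only [Dz]
    rw [← mul_assoc, mul_inv_cancel₀ tpi_ne, one_mul]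
  rw [h1]; exact h

lemma Dz_differentiableOn {f : ℂ → ℂ} (hf : DifferentiableOn ℂ f Hp) :
    DifferentiableOn ℂ (Dz f) Hp := by
  have : Dz f = fun z => (2 * π * I)⁻¹ * deriv f z := by ext z; rfl
  rw [this]
  exact (hf.deriv isOpen_Hp).const_mul _

lemma Dz_comp_qe {f g : ℂ → ℂ} (hf : ∀ z : ℂ, 0 < z.im → f z = g (qe z))
    (hg : DifferentiableOn ℂ g (Metric.ball 0 1)) {z : ℂ} (hz : 0 < z.im) :
    Dz f z = qe z * deriv g (qe z) := by
  have h1 : f =ᶠ[𝓝 z] fun z => g (qe z) :=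
    Filter.eventually_of_mem (Hp_mem hz) fun y hy => hf y hy
  have h2 : HasDerivAt g (deriv g (qe z)) (qe z) :=
    ((hg _ (qe_mem hz)).differentiableAt (Metric.isOpen_ball.mem_nhds (qe_mem hz))).hasDerivAt
  have h3 : HasDerivAt (fun z => g (qe z)) (deriv g (qe z) * (qe z * (2 * π * I))) z :=
    h2.comp z (hasDerivAt_qe z)
  rw [Dz, h1.deriv_eq, h3.deriv]
  field_simp [tpi_ne]

lemma diffOn_comp_qe {f g : ℂ → ℂ} (hf : ∀ z : ℂ, 0 < z.im → f z = g (qe z))
    (hg : DifferentiableOn ℂ g (Metric.ball 0 1)) : DifferentiableOn ℂ f Hp := by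
  have h : DifferentiableOn ℂ (fun z => g (qe z)) Hp :=
    hg.comp (fun z _ => (hasDerivAt_qe z).differentiableAt.differentiableWithinAt)
      fun z hz => qe_mem hz
  exact h.congr fun z hz => hf z hz

/-! ### The functions of `q` -/

/-- `w` as a function of `q`. -/
noncomputable def wq (q : ℂ) : ℂ := q * aq q
/-- `V` as a function of `q`. -/
noncomputable def v0 (q : ℂ) : ℂ := 1 + q * deriv aq q / aq q
/-- `DV` as a function of `q`. -/
noncomputable def v1 (q : ℂ) : ℂ := q * deriv v0 q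
/-- `DDV` as a function of `q`. -/
noncomputable def v2 (q : ℂ) : ℂ := q * deriv v1 q

section qside
variable (hQ : QsStmt)
include hQ

lemma wf_eq {z : ℂ} (hz : 0 < z.im) : wf z = wq (qe z) := hQ.1 z hz

lemma aq_diff : DifferentiableOn ℂ aq (Metric.ball 0 1) := hQ.2.2.2.2.2.1

lemma aq_ne {q : ℂ} (hq : ‖q‖ < 1) : aq q ≠ 0 := hQ.2.2.2.2.2.2.1 q hq

lemma wq_diff : DifferentiableOn ℂ wq (Metric.ball 0 1) := by
  have : wq = fun q => q * aq q := by ext q; rfl
  rw [this]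
  exact differentiableOn_id.mul (aq_diff hQ)

lemma v0_diff : DifferentiableOn ℂ v0 (Metric.ball 0 1) := by
  have : v0 = fun q => 1 + q * deriv aq q / aq q := by ext q; rfl
  rw [this]
  refine (differentiableOn_const _).add
    ((differentiableOn_id.mul ((aq_diff hQ).deriv Metric.isOpen_ball)).div (aq_diff hQ) ?_)
  intro q hq
  exact aq_ne hQ (mem_ball_zero_iff.mp hq)

lemma v1_diff : DifferentiableOn ℂ v1 (Metric.ball 0 1) := by
  have : v1 = fun q => q * deriv v0 q := by ext q; rfl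
  rw [this]
  exact differentiableOn_id.mul ((v0_diff hQ).deriv Metric.isOpen_ball)

lemma wf_ne {z : ℂ} (hz : 0 < z.im) : wf z ≠ 0 := by
  rw [wf_eq hQ hz, wq]
  exact mul_ne_zero (qe_ne z) (aq_ne hQ (qe_norm_lt hz))

lemma wf_diff : DifferentiableOn ℂ wf Hp :=
  diffOn_comp_qe (fun _ hz => wf_eq hQ hz) (wq_diff hQ)

lemma Dwf_eq {z : ℂ} (hz : 0 < z.im) :
    Dz wf z = qe z * (aq (qe z) + qe z * deriv aq (qe z)) := by
  rw [Dz_comp_qe (fun _ hz => wf_eq hQ hz) (wq_diff hQ) hz]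
  congr 1
  have h2 : HasDerivAt aq (deriv aq (qe z)) (qe z) :=
    ((aq_diff hQ _ (qe_mem hz)).differentiableAt
      (Metric.isOpen_ball.mem_nhds (qe_mem hz))).hasDerivAt
  have h3 : HasDerivAt wq (1 * aq (qe z) + qe z * deriv aq (qe z)) (qe z) :=
    (hasDerivAt_id (qe z)).mul h2
  rw [h3.deriv, one_mul]

lemma Vf_eq {z : ℂ} (hz : 0 < z.im) : Vf z = v0 (qe z) := by
  have h := aq_ne hQ (qe_norm_lt hz)
  have h' := qe_ne z
  rw [Vf, Dwf_eq hQ hz, wf_eq hQ hz, wq, v0]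
  field_simp

lemma Vf_diff : DifferentiableOn ℂ Vf Hp :=
  diffOn_comp_qe (fun _ hz => Vf_eq hQ hz) (v0_diff hQ)

lemma DVf_eq {z : ℂ} (hz : 0 < z.im) : Dz Vf z = v1 (qe z) :=
  Dz_comp_qe (fun _ hz => Vf_eq hQ hz) (v0_diff hQ) hz

lemma DDVf_eq {z : ℂ} (hz : 0 < z.im) : Dz (Dz Vf) z = v2 (qe z) :=
  Dz_comp_qe (fun _ hz => DVf_eq hQ hz) (v1_diff hQ) hz

end qside

/-! ### The transformation under the matrices `W` -/

/-- `J(z) = e c z + e d`. -/
noncomputable def Jf (e : ℕ) (c d : ℤ) (z : ℂ) : ℂ := (e : ℂ) * c * z + (e : ℂ) * d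

section transf
variable {e : ℕ} {a b c d : ℤ}

lemma Jf_ne (he : e ≠ 0) (h : (e : ℤ) * a * d - b * c = 1) {z : ℂ} (hz : 0 < z.im) :
    Jf e c d z ≠ 0 := by
  intro h0
  have him := congrArg Complex.im h0
  have hre := congrArg Complex.re h0
  simp only [Jf, Complex.add_im, Complex.mul_im, Complex.natCast_re, Complex.natCast_im,
    Complex.intCast_re, Complex.intCast_im, Complex.mul_re, mul_zero, zero_mul, add_zero,
    sub_zero, Complex.zero_im, Complex.add_re, Complex.zero_re] at him hre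
  have he' : (e : ℝ) ≠ 0 := by exact_mod_cast he
  have hc : (c : ℝ) = 0 := by
    rcases mul_eq_zero.mp him with h1 | h1
    · rcases mul_eq_zero.mp h1 with h2 | h2
      · exact absurd h2 he'
      · exact h2
    · exact absurd h1 hz.ne'
  rw [hc] at hre
  have hd : (d : ℝ) = 0 := by
    have : (e : ℝ) * d = 0 := by linarith
    rcases mul_eq_zero.mp this with h2 | h2
    · exact absurd h2 he'
    · exact h2
  have hc' : c = 0 := by exact_mod_cast hc
  have hd' : d = 0 := by exact_mod_cast hd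
  rw [hc', hd'] at h
  simp at h

lemma hasDerivAt_Jf (e : ℕ) (c d : ℤ) (z : ℂ) : HasDerivAt (Jf e c d) ((e : ℂ) * c) z := by
  have h1 : HasDerivAt (fun z : ℂ => (e : ℂ) * c * z + (e : ℂ) * d) ((e : ℂ) * c) z := by
    simpa using ((hasDerivAt_id z).const_mul ((e : ℂ) * c)).add_const ((e : ℂ) * d)
  exact h1

lemma hasDerivAt_Wact (he : e ≠ 0) (h : (e : ℤ) * a * d - b * c = 1) {z : ℂ} (hz : 0 < z.im) :
    HasDerivAt (Wact e a b c d) ((e : ℂ) / (Jf e c d z) ^ 2) z := by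
  have hJ := Jf_ne he h hz
  have h1 : HasDerivAt (fun z : ℂ => (e : ℂ) * a * z + b) ((e : ℂ) * a) z := by
    simpa using ((hasDerivAt_id z).const_mul ((e : ℂ) * a)).add_const (b : ℂ)
  have h2 := h1.div (hasDerivAt_Jf e c d z) hJ
  have hC : ((e : ℂ) * a * d - b * c) = 1 := by exact_mod_cast h
  have h3 : ((e : ℂ) * a * Jf e c d z - ((e : ℂ) * a * z + b) * ((e : ℂ) * c))
      = (e : ℂ) := by
    simp only [Jf]
    linear_combination (e : ℂ) * hC
  rw [h3] at h2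
  exact h2

lemma deriv_transf (he : e ≠ 0) (h : (e : ℤ) * a * d - b * c = 1)
    (hW : ∀ z : ℂ, 0 < z.im → 0 < (Wact e a b c d z).im)
    {f g : ℂ → ℂ} (hf : DifferentiableOn ℂ f Hp)
    (hfg : ∀ z : ℂ, 0 < z.im → f (Wact e a b c d z) = g z) {z g' : ℂ} (hz : 0 < z.im)
    (hg : HasDerivAt g g' z) :
    2 * π * I * Dz f (Wact e a b c d z) * ((e : ℂ) / (Jf e c d z) ^ 2) = g' := by
  have h1 : HasDerivAt f (2 * π * I * Dz f (Wact e a b c d z)) (Wact e a b c d z) :=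
    hasDerivAt_Dz ((hf _ (hW z hz)).differentiableAt (Hp_mem (hW z hz)))
  have h2 : HasDerivAt (fun z => f (Wact e a b c d z))
      (2 * π * I * Dz f (Wact e a b c d z) * ((e : ℂ) / (Jf e c d z) ^ 2)) z :=
    h1.comp z (hasDerivAt_Wact he h hz)
  have h3 : g =ᶠ[𝓝 z] fun z => f (Wact e a b c d z) :=
    Filter.eventually_of_mem (Hp_mem hz) fun y hy => (hfg y hy).symm
  exact h2.unique (hg.congr_of_eventuallyEq h3.symm)

variable (hQ : QsStmt)
include hQ

/-- Transformation of `V`. -/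
lemma V_transf (he : e ≠ 0) (h : (e : ℤ) * a * d - b * c = 1)
    (hW : ∀ z : ℂ, 0 < z.im → 0 < (Wact e a b c d z).im) (ε : ℂ)
    (hw : (ε = 1 ∧ ∀ z : ℂ, 0 < z.im → wf (Wact e a b c d z) = wf z) ∨
      (ε = -1 ∧ ∀ z : ℂ, 0 < z.im → wf (Wact e a b c d z) = (wf z)⁻¹))
    {z : ℂ} (hz : 0 < z.im) :
    Vf (Wact e a b c d z) = ε * ((Jf e c d z) ^ 2 / e) * Vf z := by
  have hJ := Jf_ne he h hz
  have he' : (e : ℂ) ≠ 0 := by exact_mod_cast he
  have hp := tpi_ne
  have hwn := wf_ne hQ hz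
  have hwd : HasDerivAt wf (2 * π * I * Dz wf z) z :=
    hasDerivAt_Dz ((wf_diff hQ _ hz).differentiableAt (Hp_mem hz))
  rcases hw with ⟨rfl, hw⟩ | ⟨rfl, hw⟩
  · have h1 := deriv_transf he h hW (wf_diff hQ) hw hz hwd
    rw [Vf, Vf, hw z hz]
    have h2 : Dz wf (Wact e a b c d z) = (Jf e c d z) ^ 2 / e * Dz wf z := by
      have h3 : (2 * π * I : ℂ) * (Dz wf (Wact e a b c d z) * ((e : ℂ) / (Jf e c d z) ^ 2)
          - Dz wf z) = 0 := by linear_combination h1
      rcases mul_eq_zero.mp h3 with h4 | h4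
      · exact absurd h4 hp
      · field_simp at h4 ⊢
        linear_combination h4
    rw [h2]; ring
  · have hinv : HasDerivAt (fun z => (wf z)⁻¹) (-(2 * π * I * Dz wf z) / (wf z) ^ 2) z :=
      hwd.inv hwn
    have h1 := deriv_transf he h hW (wf_diff hQ) hw hz hinv
    rw [Vf, Vf, hw z hz]
    have h2 : Dz wf (Wact e a b c d z) = -((Jf e c d z) ^ 2 / e * Dz wf z / (wf z) ^ 2) := by
      have h3 : (2 * π * I : ℂ) * (Dz wf (Wact e a b c d z) * ((e : ℂ) / (Jf e c d z) ^ 2)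
          + Dz wf z / (wf z) ^ 2) = 0 := by linear_combination h1
      rcases mul_eq_zero.mp h3 with h4 | h4
      · exact absurd h4 hp
      · field_simp at h4 ⊢
        linear_combination h4
    rw [h2]; field_simp

/-- Transformation of `DV`. -/
lemma V1_transf (he : e ≠ 0) (h : (e : ℤ) * a * d - b * c = 1)
    (hW : ∀ z : ℂ, 0 < z.im → 0 < (Wact e a b c d z).im) (ε : ℂ)
    (hV : ∀ z : ℂ, 0 < z.im →
      Vf (Wact e a b c d z) = ε * ((Jf e c d z) ^ 2 / e) * Vf z)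
    {z : ℂ} (hz : 0 < z.im) :
    Dz Vf (Wact e a b c d z) = ε * (2 * c * (Jf e c d z) ^ 3 / (e * (2 * π * I)) * Vf z
      + (Jf e c d z) ^ 4 / e ^ 2 * Dz Vf z) := by
  have hJ := Jf_ne he h hz
  have he' : (e : ℂ) ≠ 0 := by exact_mod_cast he
  have hp := tpi_ne
  have hVd : HasDerivAt Vf (2 * π * I * Dz Vf z) z :=
    hasDerivAt_Dz ((Vf_diff hQ _ hz).differentiableAt (Hp_mem hz))
  have hg : HasDerivAt (fun z => ε * ((Jf e c d z) ^ 2 / e) * Vf z)
      (ε * ((2 : ℕ) * Jf e c d z ^ (2 - 1) * ((e : ℂ) * c) / e) * Vf z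
        + ε * ((Jf e c d z) ^ 2 / e) * (2 * π * I * Dz Vf z)) z :=
    ((((hasDerivAt_Jf e c d z).pow 2).div_const (e : ℂ)).const_mul ε).mul hVd
  have h1 := deriv_transf he h hW (Vf_diff hQ) hV hz hg
  generalize (2 * π * I : ℂ) = p at *
  field_simp at h1 ⊢
  push_cast at h1 ⊢
  linear_combination (1 / (1 : ℂ)) * h1

/-- Transformation of `DDV`. -/
lemma V2_transf (he : e ≠ 0) (h : (e : ℤ) * a * d - b * c = 1)
    (hW : ∀ z : ℂ, 0 < z.im → 0 < (Wact e a b c d z).im) (ε : ℂ)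
    (hV : ∀ z : ℂ, 0 < z.im →
      Vf (Wact e a b c d z) = ε * ((Jf e c d z) ^ 2 / e) * Vf z)
    {z : ℂ} (hz : 0 < z.im) :
    Dz (Dz Vf) (Wact e a b c d z) = ε * ((Jf e c d z) ^ 2 / (e * (2 * π * I)))
      * (6 * c ^ 2 * (Jf e c d z) ^ 2 / (2 * π * I) * Vf z
      + 6 * c * (Jf e c d z) ^ 3 / e * Dz Vf z
      + (Jf e c d z) ^ 4 / e ^ 2 * (2 * π * I) * Dz (Dz Vf) z) := by
  have hJ := Jf_ne he h hz
  have he' : (e : ℂ) ≠ 0 := by exact_mod_cast he
  have hp := tpi_ne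
  have hVd : HasDerivAt Vf (2 * π * I * Dz Vf z) z :=
    hasDerivAt_Dz ((Vf_diff hQ _ hz).differentiableAt (Hp_mem hz))
  have hV1d : HasDerivAt (Dz Vf) (2 * π * I * Dz (Dz Vf) z) z :=
    hasDerivAt_Dz (((Dz_differentiableOn (Vf_diff hQ)) _ hz).differentiableAt (Hp_mem hz))
  have hg : HasDerivAt (fun z => ε * (2 * c * (Jf e c d z) ^ 3 / (e * (2 * π * I)) * Vf z
      + (Jf e c d z) ^ 4 / e ^ 2 * Dz Vf z))
      (ε * ((2 * c * ((3 : ℕ) * Jf e c d z ^ (3 - 1) * ((e : ℂ) * c)) / (e * (2 * π * I)) * Vf z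
        + 2 * c * (Jf e c d z) ^ 3 / (e * (2 * π * I)) * (2 * π * I * Dz Vf z))
        + (((4 : ℕ) * Jf e c d z ^ (4 - 1) * ((e : ℂ) * c)) / e ^ 2 * Dz Vf z
        + (Jf e c d z) ^ 4 / e ^ 2 * (2 * π * I * Dz (Dz Vf) z)))) z :=
    (((((((hasDerivAt_Jf e c d z).pow 3).const_mul (2 * c : ℂ)).div_const
      ((e : ℂ) * (2 * π * I))).mul hVd).add
      ((((hasDerivAt_Jf e c d z).pow 4).div_const ((e : ℂ) ^ 2)).mul hV1d)).const_mul ε)
  have h1 := deriv_transf he h hW (Dz_differentiableOn (Vf_diff hQ))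
    (fun z hz => V1_transf hQ he h hW ε hV hz) hz hg
  generalize (2 * π * I : ℂ) = p at *
  field_simp at h1 ⊢
  push_cast at h1 ⊢
  linear_combination (1 / (1 : ℂ)) * h1

end transf

/-! ### The function `Psi` -/

/-- The numerator. -/
noncomputable def Num (z : ℂ) : ℂ :=
  (2 * Vf z * Dz (Dz Vf) z - 3 * (Dz Vf z) ^ 2) * (S6 (wf z)) ^ 2 * (1 - wf z) ^ 2
    - (Vf z) ^ 4 * Nw (wf z)

/-- The weight eight form. -/
noncomputable def Psi (z : ℂ) : ℂ := Num z / (wf z) ^ 7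

lemma Psi_transf (hQ : QsStmt) {e : ℕ} {a b c d : ℤ} (he : e ≠ 0)
    (h : (e : ℤ) * a * d - b * c = 1)
    (hW : ∀ z : ℂ, 0 < z.im → 0 < (Wact e a b c d z).im) (ε : ℂ)
    (hw : (ε = 1 ∧ ∀ z : ℂ, 0 < z.im → wf (Wact e a b c d z) = wf z) ∨
      (ε = -1 ∧ ∀ z : ℂ, 0 < z.im → wf (Wact e a b c d z) = (wf z)⁻¹))
    {z : ℂ} (hz : 0 < z.im) :
    Psi (Wact e a b c d z) = ((Jf e c d z) ^ 2 / e) ^ 4 * Psi z := by
  have hJ := Jf_ne he h hz
  have he' : (e : ℂ) ≠ 0 := by exact_mod_cast he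
  have hp := tpi_ne
  have hwn := wf_ne hQ hz
  have hV : ∀ z : ℂ, 0 < z.im →
      Vf (Wact e a b c d z) = ε * ((Jf e c d z) ^ 2 / e) * Vf z :=
    fun z hz => V_transf hQ he h hW ε hw hz
  have e0 := hV z hz
  have e1 := V1_transf hQ he h hW ε hV hz
  have e2 := V2_transf hQ he h hW ε hV hz
  have hε2 : ε ^ 2 = 1 := by rcases hw with ⟨h, -⟩ | ⟨h, -⟩ <;> rw [h] <;> norm_num
  have hε4 : ε ^ 4 = 1 := by
    have : ε ^ 4 = (ε ^ 2) ^ 2 := by ring
    rw [this, hε2, one_pow]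
  have hA : 2 * Vf (Wact e a b c d z) * Dz (Dz Vf) (Wact e a b c d z)
      - 3 * (Dz Vf (Wact e a b c d z)) ^ 2
      = ((Jf e c d z) ^ 2 / e) ^ 4 * (2 * Vf z * Dz (Dz Vf) z - 3 * (Dz Vf z) ^ 2) := by
    rw [e0, e1, e2]
    generalize (2 * π * I : ℂ) = p at *
    have : ∀ X Y : ℂ, X = ε ^ 2 * Y → X = Y := fun X Y hXY => by rw [hXY, hε2, one_mul]
    apply this
    field_simp
    ring
  have hB : (Vf (Wact e a b c d z)) ^ 4 = ((Jf e c d z) ^ 2 / e) ^ 4 * (Vf z) ^ 4 := by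
    rw [e0, mul_pow, mul_pow, hε4, one_mul]
  rw [Psi, Psi, Num, Num, hA, hB]
  generalize (Jf e c d z) ^ 2 / (e : ℂ) = j
  generalize 2 * Vf z * Dz (Dz Vf) z - 3 * (Dz Vf z) ^ 2 = A
  generalize Vf z = v
  rcases hw with ⟨-, hw⟩ | ⟨-, hw⟩
  · rw [hw z hz]; ring
  · rw [hw z hz]
    generalize wf z = w at *
    simp only [S6, Nw]
    field_simp
    ring

/-! ### Expansion at infinity -/

/-- Composition of coefficient lists, truncated. -/
def lcomp (M : ℕ) : List ℤ → List ℤ → List ℤ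
  | [], _ => []
  | a :: l, m => ladd [a] (lmulT M m (lcomp M l m))

lemma TEq.evc {M : ℕ} {f : ℂ → ℂ} {m : List ℤ} (hf : TEq M f m) (l : List ℤ) :
    TEq M (fun q => ev l (f q)) (lcomp M l m) := by
  induction l with
  | nil =>
    have := TEq.of_ev M []
    exact this.congr (Eventually.of_forall fun q => by simp)
  | cons a l ih =>
    have h := (TEq.const M a).add (hf.mul ih)
    exact h.congr (Eventually.of_forall fun q => by simp)

/-- The list of `a(q)`. -/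
def la : List ℤ := [1, -2, 1, -2, 4, -4, 5, -6, 9, -12, 13, -16, 21, -24, 25]
/-- The list of `q a'/a`. -/
def lqa : List ℤ := [0, -2, -2, -8, -2, -12, -8, -16, -2, -26, -12, -24, -8, -2, -16]
/-- The list of `w`. -/
def lw : List ℤ := lmulT 15 [0, 1] la
/-- The list of `v`. -/
def lv : List ℤ := ladd [1] lqa
/-- The list of `v1`. -/
def lv1 : List ℤ := lqd 0 lv
/-- The list of `v2`. -/
def lv2 : List ℤ := lqd 0 lv1

/-- The numerator as a function of `q`. -/
noncomputable def Gq (q : ℂ) : ℂ :=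
  ((2 : ℤ) * (v0 q * v2 q) - (3 : ℤ) * (v1 q * v1 q))
      * (ev [1, -8, 8, -18, 8, -8, 1] (wq q) * ev [1, -8, 8, -18, 8, -8, 1] (wq q)
        * (ev [1, -2, 1] (wq q)))
    - (v0 q * v0 q) * (v0 q * v0 q)
      * ev [0, -4, 12, -112, 500, -1160, 1676, -2016, 1676, -1160, 500, -112, 12, -4] (wq q)

section expansion
variable (hQ : QsStmt)
include hQ

lemma teq_aq : TEq 15 aq la := by
  refine ⟨(aq_diff hQ).analyticAt (Metric.ball_mem_nhds 0 one_pos), ?_⟩
  refine hQ.2.2.2.2.2.2.2.2.1.congr' (Eventually.of_forall fun q => ?_) EventuallyEq.rfl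
  simp only [alpha, la, ev_cons, ev_nil]
  push_cast
  ring

lemma teq_wq : TEq 15 wq lw := (TEq.id 15).mul (teq_aq hQ)

lemma teq_v0 : TEq 15 v0 lv := by
  have h0 : aq 0 ≠ 0 := aq_ne hQ (by simp)
  have h1 : TEq 15 (fun q => q * deriv aq q / aq q) lqa :=
    (teq_aq hQ).qderiv.div (teq_aq hQ) h0 (by decide)
  exact ((TEq.const 15 1).add h1).congr (Eventually.of_forall fun q => by simp [v0])

lemma teq_v1 : TEq 15 v1 lv1 := (teq_v0 hQ).qderiv

lemma teq_v2 : TEq 15 v2 lv2 := (teq_v1 hQ).qderiv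

lemma Gq_isBigO : Gq =O[𝓝 0] (fun q : ℂ => q ^ 15) := by
  have hw := teq_wq hQ
  have hv := teq_v0 hQ
  have hv1 := teq_v1 hQ
  have hv2 := teq_v2 hQ
  have h := ((((hv.mul hv2).smul 2).sub ((hv1.mul hv1).smul 3)).mul
    (((TEq.evc hw [1, -8, 8, -18, 8, -8, 1]).mul (TEq.evc hw [1, -8, 8, -18, 8, -8, 1])).mul
      (TEq.evc hw [1, -2, 1]))).sub
    (((hv.mul hv).mul (hv.mul hv)).mul
      (TEq.evc hw [0, -4, 12, -112, 500, -1160, 1676, -2016, 1676, -1160, 500, -112, 12, -4]))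
  exact h.isBigO (by decide +kernel)

lemma Num_eq {z : ℂ} (hz : 0 < z.im) : Num z = Gq (qe z) := by
  rw [Num, Gq, Vf_eq hQ hz, DVf_eq hQ hz, DDVf_eq hQ hz, wf_eq hQ hz]
  simp only [S6, Nw, ev_cons, ev_nil]
  push_cast
  ring

end expansion

/-! ### The product of four eta functions -/

lemma et_eq (z : ℂ) : et z ^ 24 = qe z * Eu (qe z) ^ 24 := by
  have h1 : Function.Periodic.qParam 1 z = qe z := by
    simp [Function.Periodic.qParam, qe]
  have h2 : (Function.Periodic.qParam 24 z) ^ 24 = qe z := by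
    simp only [Function.Periodic.qParam, qe]
    rw [← Complex.exp_nat_mul]
    congr 1
    push_cast
    ring
  simp only [et, ModularForm.eta, mul_pow, ModularForm.eta_q, h1, h2, Eu]

/-- The product of the four Euler products. -/
noncomputable def E4 (q : ℂ) : ℂ := Eu q * Eu (q ^ 2) * Eu (q ^ 13) * Eu (q ^ 26)

lemma etp_eq (z : ℂ) : etp z ^ 24 = qe z ^ 42 * E4 (qe z) ^ 24 := by
  have h2 := et_eq (2 * z)
  have h13 := et_eq (13 * z)
  have h26 := et_eq (26 * z)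
  have e2 := qe_nat_mul 2 z
  have e13 := qe_nat_mul 13 z
  have e26 := qe_nat_mul 26 z
  push_cast at e2 e13 e26
  rw [e2] at h2
  rw [e13] at h13
  rw [e26] at h26
  simp only [etp, mul_pow, et_eq z, h2, h13, h26, E4]
  ring

lemma im_mul_pos {k : ℕ} (hk : 0 < k) {z : ℂ} (hz : 0 < z.im) : 0 < ((k : ℂ) * z).im := by
  have : ((k : ℂ) * z).im = k * z.im := by simp
  rw [this]; positivity

lemma et_ne {z : ℂ} (hz : 0 < z.im) : et z ≠ 0 := ModularForm.eta_ne_zero hz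

lemma et_diff {z : ℂ} (hz : 0 < z.im) : DifferentiableAt ℂ et z :=
  ModularForm.differentiableAt_eta_of_mem_upperHalfPlaneSet hz

lemma etp_ne {z : ℂ} (hz : 0 < z.im) : etp z ≠ 0 := by
  have h2 : et (2 * z) ≠ 0 := by
    have := et_ne (im_mul_pos (k := 2) (by norm_num) hz); exact_mod_cast this
  have h13 : et (13 * z) ≠ 0 := by
    have := et_ne (im_mul_pos (k := 13) (by norm_num) hz); exact_mod_cast this
  have h26 : et (26 * z) ≠ 0 := by
    have := et_ne (im_mul_pos (k := 26) (by norm_num) hz); exact_mod_cast this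
  exact mul_ne_zero (mul_ne_zero (mul_ne_zero (et_ne hz) h2) h13) h26

lemma etk_diff (k : ℕ) (hk : 0 < k) : DifferentiableOn ℂ (fun z => et (k * z)) Hp := by
  intro z hz
  have h1 : DifferentiableAt ℂ et ((k : ℂ) * z) := et_diff (im_mul_pos hk hz)
  have h2 : DifferentiableAt ℂ (fun z : ℂ => (k : ℂ) * z) z := by fun_prop
  exact (h1.comp z h2).differentiableWithinAt

lemma etp_diff : DifferentiableOn ℂ etp Hp := by
  have h1 : DifferentiableOn ℂ et Hp := fun z hz => (et_diff hz).differentiableWithinAt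
  have h2 := etk_diff 2 (by norm_num)
  have h13 := etk_diff 13 (by norm_num)
  have h26 := etk_diff 26 (by norm_num)
  have := ((h1.mul h2).mul h13).mul h26
  refine this.congr fun z _ => ?_
  simp [etp]

/-! ### The invariant function and the conclusion -/

/-- The weight zero function. -/
noncomputable def Ff (z : ℂ) : ℂ := Psi z ^ 6 / etp z ^ 24

lemma Ff_diff (hQ : QsStmt) : DifferentiableOn ℂ Ff Hp := by
  have hw := wf_diff hQ
  have hV := Vf_diff hQ
  have hV1 := Dz_differentiableOn hV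
  have hV2 := Dz_differentiableOn hV1
  have hS : DifferentiableOn ℂ (fun z => S6 (wf z)) Hp := by
    simp only [S6]; fun_prop
  have hN : DifferentiableOn ℂ (fun z => Nw (wf z)) Hp := by
    simp only [Nw]; fun_prop
  have hNum : DifferentiableOn ℂ Num Hp := by
    have : Num = fun z => (2 * Vf z * Dz (Dz Vf) z - 3 * (Dz Vf z) ^ 2) * (S6 (wf z)) ^ 2
      * (1 - wf z) ^ 2 - (Vf z) ^ 4 * Nw (wf z) := by ext z; rfl
    rw [this]
    exact ((((((differentiableOn_const _).mul hV).mul hV2).sub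
      ((differentiableOn_const _).mul (hV1.pow 2))).mul (hS.pow 2)).mul
      (((differentiableOn_const _).sub hw).pow 2)).sub ((hV.pow 4).mul hN)
  have hP : DifferentiableOn ℂ Psi Hp := by
    have : Psi = fun z => Num z / (wf z) ^ 7 := by ext z; rfl
    rw [this]
    exact hNum.div (hw.pow 7) fun z hz => pow_ne_zero _ (wf_ne hQ hz)
  have : Ff = fun z => Psi z ^ 6 / etp z ^ 24 := by ext z; rfl
  rw [this]
  exact (hP.pow 6).div (etp_diff.pow 24) fun z hz => pow_ne_zero _ (etp_ne hz)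

lemma Ff_tendsto (hQ : QsStmt) : Tendsto Ff (comap Complex.im atTop) (𝓝 0) := by
  -- the function of q
  have hG : (fun q => Gq q ^ 6) =O[𝓝 0] (fun q : ℂ => q ^ (84 + 1)) := by
    have h1 : (fun q => Gq q ^ 6) =O[𝓝 0] (fun q : ℂ => (q ^ 15) ^ 6) := (Gq_isBigO hQ).pow 6
    refine h1.trans ?_
    refine IsBigO.of_bound 1 ?_
    have hball : Metric.ball (0 : ℂ) 1 ∈ 𝓝 (0 : ℂ) := Metric.ball_mem_nhds 0 one_pos
    filter_upwards [hball] with q hq
    have hq1 : ‖q‖ ≤ 1 := by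
      have := mem_ball_zero_iff.mp hq; linarith
    rw [← pow_mul, norm_pow, norm_pow, one_mul]
    exact pow_le_pow_of_le_one (norm_nonneg _) hq1 (by norm_num)
  have h1 : Tendsto (fun q => Gq q ^ 6 / q ^ 84) (𝓝[≠] 0) (𝓝 0) := tendsto_div_pow hG
  have haq : ContinuousAt aq 0 :=
    ((aq_diff hQ).analyticAt (Metric.ball_mem_nhds 0 one_pos)).continuousAt
  have hEu : ContinuousAt Eu 0 :=
    (hQ.2.2.1.analyticAt (Metric.ball_mem_nhds 0 one_pos)).continuousAt
  have hEuk : ∀ k : ℕ, 0 < k → ContinuousAt (fun q : ℂ => Eu (q ^ k)) 0 := by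
    intro k hk
    have h0 : (0 : ℂ) ^ k = 0 := zero_pow hk.ne'
    have h2 : ContinuousAt Eu ((fun q : ℂ => q ^ k) 0) := by simpa [h0] using hEu
    exact ContinuousAt.comp (f := fun q : ℂ => q ^ k) h2 (continuous_pow k).continuousAt
  have hE4 : ContinuousAt E4 0 :=
    ((hEu.mul (hEuk 2 (by norm_num))).mul (hEuk 13 (by norm_num))).mul (hEuk 26 (by norm_num))
  have hE40 : E4 0 = 1 := by simp [E4, hQ.2.2.2.2.1]
  have ha0 : aq 0 = 1 := hQ.2.2.2.2.2.2.2.1
  have h2 : Tendsto (fun q => (aq q ^ 42 * E4 q ^ 24)⁻¹) (𝓝[≠] 0) (𝓝 1) := by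
    have hc : ContinuousAt (fun q => (aq q ^ 42 * E4 q ^ 24)⁻¹) 0 := by
      refine ((haq.pow 42).mul (hE4.pow 24)).inv₀ ?_
      simp [ha0, hE40]
    have := hc.tendsto
    simp only [ha0, hE40, one_pow, mul_one, inv_one] at this
    exact this.mono_left nhdsWithin_le_nhds
  have h3 := (h1.mul h2).comp qe_tendsto
  rw [zero_mul] at h3
  refine h3.congr' ?_
  have hpos : ∀ᶠ z : ℂ in comap Complex.im atTop, 0 < z.im :=
    (eventually_gt_atTop (0 : ℝ)).comap Complex.im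
  filter_upwards [hpos] with z hz
  have hqz := qe_ne z
  have haz := aq_ne hQ (qe_norm_lt hz)
  have hez : E4 (qe z) ≠ 0 := by
    intro h0
    have := etp_eq z
    rw [h0] at this
    simp only [ne_eq, OfNat.ofNat_ne_zero, not_false_eq_true, zero_pow, mul_zero] at this
    exact etp_ne hz (pow_eq_zero_iff (by norm_num) |>.mp this)
  simp only [Function.comp, Ff, Psi]
  rw [Num_eq hQ hz, etp_eq z, wf_eq hQ hz, wq]
  field_simp

theorem c2 (h26 : Inv26Stmt) (hD : InvDStmt) (hGL : GlStmt) (hQ : QsStmt) : SchwStmt := by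
  intro z hz
  have key : ∀ z : ℂ, 0 < z.im → Ff z = 0 := by
    refine hGL 26 (by decide +kernel) Ff (Ff_diff hQ) ?_ (Ff_tendsto hQ)
    intro e a b c d he hc h z hz
    have he0 : e ≠ 0 := fun h0 => by subst h0; simp at he
    have he' : (e : ℂ) ≠ 0 := by exact_mod_cast he0
    have hW : ∀ z : ℂ, 0 < z.im → 0 < (Wact e a b c d z).im :=
      fun z hz => (h26 e a b c d he hc h z hz).1
    have hcases : (e = 1 ∨ e = 26) ∨ (e = 2 ∨ e = 13) := by
      have h1 : e ∈ Nat.divisors 26 := Nat.mem_divisors.mpr ⟨he, by norm_num⟩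
      have h2 : Nat.divisors 26 = {1, 2, 13, 26} := by decide +kernel
      rw [h2] at h1
      simp only [Finset.mem_insert, Finset.mem_singleton] at h1
      tauto
    have hJ := Jf_ne he0 h hz
    have hPsi : Psi (Wact e a b c d z) = ((Jf e c d z) ^ 2 / e) ^ 4 * Psi z := by
      rcases hcases with h1 | h1
      · exact Psi_transf hQ he0 h hW 1 (Or.inl ⟨rfl, fun z hz =>
          (h26 e a b c d he hc h z hz).2.1 h1⟩) hz
      · exact Psi_transf hQ he0 h hW (-1) (Or.inr ⟨rfl, fun z hz =>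
          (h26 e a b c d he hc h z hz).2.2 h1⟩) hz
    have hEt := hD e a b c d he hc h z hz
    have hJeq : (e : ℂ) * c * z + (e : ℂ) * d = Jf e c d z := rfl
    rw [hJeq] at hEt
    rw [Ff, Ff, hPsi, hEt]
    have h3 : ((Jf e c d z) ^ 2 / (e : ℂ)) ≠ 0 := div_ne_zero (pow_ne_zero _ hJ) he'
    have h4 := etp_ne hz
    generalize (Jf e c d z) ^ 2 / (e : ℂ) = j at *
    field_simp
  have h0 := key z hz
  rw [Ff] at h0
  have h1 : Psi z ^ 6 = 0 := by
    rcases div_eq_zero_iff.mp h0 with h | h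
    · exact h
    · exact absurd h (pow_ne_zero _ (etp_ne hz))
  have h2 : Psi z = 0 := pow_eq_zero_iff (by norm_num) |>.mp h1
  rw [Psi] at h2
  have h3 : Num z = 0 := by
    rcases div_eq_zero_iff.mp h2 with h | h
    · exact h
    · exact absurd h (pow_ne_zero _ (wf_ne hQ hz))
  rw [Num] at h3
  linear_combination h3

end Pool.Agent.H5.Pi
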